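import Pool.Agent.U28.SF.SF24

set_option autoImplicit false

/-!
# The primes of ALL residue classes of almost all moduli `q ≤ N ^ θ`, `θ < 1/2`, in all short intervals

Let `θ < 1/2`. For all moduli `q ≤ N ^ θ` outside of a set `E` with `∑ 1 / φ(q) ≤ (log N) ^ (-U)` over `q ∈ E`, and for EVERY
class `a` modulo `q` prime to `q`, the primes `q n + a`, `1 ≤ n ≤ X = ⌊N / q⌋`, have the following property. Their number has
the right order `μ X`, `μ = (q / φ(q)) / log X`; for a positive proportion of the integers `x ≤ X` ALL the intervals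
`(x, x + H]`, `H ≤ X`, with `μ H ≥ 1` contain at least `κ μ H` of the `n`, that is, the class has the right order of primes in
all the intervals of length `q H` to the right of `q x + a`, from the mean spacing `φ(q) log X` on; the same for every subset
`V` of positive relative density, and even for the elements of `V` which are the first of `m` terms of an arithmetic
progression in `V` with difference at most a power of `log X`. The constants `κ` and `B` do not depend on `θ` and `U`.

Proof: the theorem of Bombieri and Vinogradov (`Pool.Agent.H442R2.KF.bvY`, starting library), the energy of dense subsets of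
sifted sets at their mean spacing, uniformly in the form `q n + a`, and a covering argument (`Pool.Agent.U28.SF`), and
Szemerédi's theorem for sifted sets of the starting library.
-/

namespace Pool.Agent.Results.MP_9cfc0a_nt.ClassesInAllShortIntervals

open Finset Filter Topology

/-- the integers `1 ≤ n ≤ X` for which `q n + a` is prime -/
def Pos (q a X : ℕ) : Finset ℕ := (Icc 1 X).filter (fun n => (q * n + a).Prime)

/-- the expected density of `Pos q a X` -/
noncomputable def mu (q X : ℕ) : ℝ := (q : ℝ) / Nat.totient q / Real.log X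

/-- `n` is the first of `m` terms of an arithmetic progression in `V` with difference between `1` and `D` -/
def FirstTerm (m : ℕ) (D : ℝ) (V : Finset ℕ) (n : ℕ) : Prop :=
  ∃ d : ℕ, 1 ≤ d ∧ (d : ℝ) ≤ D ∧ ∀ j < m, n + j * d ∈ V

open Classical in
/-- At least `κ X` of the integers `0 ≤ x ≤ X` are such that for ALL natural numbers `H ≤ X` with `μ H ≥ 1` the
interval `(x, x + H]` contains at least `κ μ H` integers with the property `P`. -/
def Everywhere (κ μ : ℝ) (X : ℕ) (P : ℕ → Prop) : Prop :=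
  κ * X ≤ (((range (X + 1)).filter (fun x => ∀ H : ℕ, 1 ≤ μ * H → H ≤ X →
    κ * (μ * H) ≤ (((Ioc x (x + H)).filter P).card : ℝ))).card : ℝ)

/-- With `μ = mu q X`: `Pos q a X` has at least `c μ X` elements, and every subset `V` of relative density at least `ρ`
satisfies `Everywhere κ μ X (FirstTerm m ((log X) ^ B) V)`. -/
def Good (c κ ρ : ℝ) (m B q a X : ℕ) : Prop :=
  c * (mu q X * X) ≤ (Pos q a X).card ∧
    ∀ V ⊆ Pos q a X, ρ * (Pos q a X).card ≤ V.card → Everywhere κ (mu q X) X (FirstTerm m (Real.log X ^ B) V)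

/-- There is `c > 0` such that for all `m` and `ρ > 0` there are `κ > 0` and `B` such that for all `θ < 1/2`, all `U` and all
large `N` there is a set `E` of integers `1 ≤ q ≤ N ^ θ` with `∑ 1 / φ(q) ≤ 1 / (log N) ^ U`, `q ∈ E`, such that
`Good c κ ρ m B q a ⌊N / q⌋` for all other `1 ≤ q ≤ N ^ θ` and all `1 ≤ a ≤ q` prime to `q`. -/
theorem result : ∃ c : ℝ, 0 < c ∧ ∀ (m : ℕ) (ρ : ℝ), 0 < ρ → ∃ κ : ℝ, 0 < κ ∧ ∃ B : ℕ,
    ∀ θ : ℝ, θ < 1 / 2 → ∀ U : ℕ, ∃ N₀ : ℕ, ∀ N : ℕ, N₀ ≤ N → ∃ E : Finset ℕ,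
      (∀ q ∈ E, 1 ≤ q ∧ (q : ℝ) ≤ (N : ℝ) ^ θ) ∧ ∑ q ∈ E, 1 / (Nat.totient q : ℝ) ≤ 1 / Real.log N ^ U ∧
      ∀ q a : ℕ, (q : ℝ) ≤ (N : ℝ) ^ θ → q ∉ E → 1 ≤ a → a ≤ q → a.Coprime q →
        Good c κ ρ m B q a (N / q) := by
  obtain ⟨c, hc, h⟩ := Pool.Agent.U28.SF.ap_short
  refine ⟨c, hc, fun m ρ hρ => ?_⟩
  obtain ⟨κ, hκ, B, h⟩ := h m ρ hρ
  refine ⟨κ, hκ, B, fun θ hθ U => ?_⟩
  obtain ⟨N₀, h⟩ := eventually_atTop.1 (h θ hθ U)
  refine ⟨N₀, fun N hN => ?_⟩
  obtain ⟨E, hE, hsum, h⟩ := h N hN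
  refine ⟨E, fun q hq => ?_, hsum, fun q a hq hqE ha1 ha2 ha3 => ?_⟩
  · have h1 := mem_Icc.1 (hE hq)
    exact ⟨h1.1, (Nat.le_floor_iff (by positivity)).1 h1.2⟩
  · have key := h q (mem_Icc.2 ⟨ha1.trans ha2, Nat.le_floor hq⟩) hqE a ha1 ha2 ha3
    obtain ⟨k1, k2⟩ := key
    refine ⟨le_trans (le_of_eq ?_) k1, fun V hV hVc => k2 V hV hVc⟩
    unfold mu
    ring

end Pool.Agent.Results.MP_9cfc0a_nt.ClassesInAllShortIntervals
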