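import Pool.Agent.U832.RH.GeE
import Pool.Agent.U832.RG.FixedUse
import Pool.Agent.Y879.GL.QuadU

/-!
# Almost primes in ALL progressions `a` modulo `q`, `q ≤ x ^ (1 - θ)`, and the process around them

For all `q`, `a ≤ x ^ A`, `a` prime to `q`, let `S` be the set of the `m` for which `q m + a` has no prime factor
`≤ x ^ (1 / r)`. Uniformly in `a` and `q` (with `q / φ(q)` bounded) and in all intervals of `m` of length `≥ x ^ θ`, that
is for the numbers `n ≤ x`, `n ≡ a` modulo `q`, in all intervals of length `≥ q x ^ θ`, the elements of `S` form a Poisson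
process: the numbers of elements of `S` in disjoint windows are independent Poisson variables, seen from an arbitrary
integer, from an arbitrary element of `S`, or from an arbitrary `m` for which `q m + a` has at most `R` prime factors,
all `> x ^ w` (`R` and `w` do not depend on the windows).
-/

set_option autoImplicit false

namespace Pool.Agent.Results.MP_9cfc0a_nt.PoissonProgressions

open Finset Filter Pool.Agent.U832.RG Pool.Agent.U832.RH

/-- The `m` for which `q m + a` has no prime factor `≤ y`. -/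
def Rough (q a y : ℕ) : Set ℕ := {m | ∀ l : ℕ, l.Prime → l ≤ y → ¬ l ∣ q * m + a}

/-- The `m` for which `q m + a` has at most `R` prime factors, counted with multiplicity, all `> z`. -/
def AlmostRough (q a R z : ℕ) : Set ℕ := {m | m ∈ Rough q a z ∧ (q * m + a).primeFactorsList.length ≤ R}

open Classical in
/-- The product of `1 - 1 / l` over the primes `l ≤ y` that do not divide `q`. -/
noncomputable def V (q y : ℕ) : ℝ := ∏ l ∈ (Icc 1 y).filter (fun l => l.Prime ∧ ¬ l ∣ q), (1 - 1 / (l : ℝ))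

/-- The product of `1 - 1 / l` over the primes `l ≤ y`. -/
noncomputable def mertens (y : ℕ) : ℝ := ∏ l ∈ (Icc 1 y).filter Nat.Prime, (1 - 1 / (l : ℝ))

section aux

open Polynomial
open Pool.Agent.Y879.GL Pool.Agent.TH464.PO Pool.Agent.H373R2.T7 Pool.Agent.W123.RP
open Pool.Agent.W123.RU.Poly (Q Sys)

/-- the polynomial -/
noncomputable def f1 (q a : ℕ) : ℤ[X] := C (q : ℤ) * X + C (a : ℤ)

lemma f1_eval (q a : ℕ) (x : ℤ) : (f1 q a).eval x = q * x + a := by simp [f1]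

lemma f1_deg (q a : ℕ) (hq : 0 < q) : (f1 q a).natDegree = 1 := by
  unfold f1
  apply natDegree_linear
  exact_mod_cast hq.ne'

lemma f1_irr (q a : ℕ) (hq : 0 < q) (hc : q.Coprime a) : Irreducible (f1 q a) := by
  have hc' : IsCoprime (q : ℤ) (a : ℤ) := Nat.isCoprime_iff_coprime.2 hc
  have hprim : (f1 q a).IsPrimitive := by
    intro r hr
    have h0 : r ∣ (f1 q a).coeff 0 := (C_dvd_iff_dvd_coeff r (f1 q a)).1 hr 0
    have h1 : r ∣ (f1 q a).coeff 1 := (C_dvd_iff_dvd_coeff r (f1 q a)).1 hr 1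
    have e0 : (f1 q a).coeff 0 = a := by simp [f1]
    have e1 : (f1 q a).coeff 1 = q := by
      unfold f1
      rw [coeff_add, coeff_C_mul, coeff_X_one, coeff_C]
      norm_num
    rw [e0] at h0
    rw [e1] at h1
    exact hc'.isUnit_of_dvd' h1 h0
  rw [IsPrimitive.Int.irreducible_iff_irreducible_map_cast hprim]
  apply irreducible_of_degree_eq_one
  rw [degree_map_eq_of_injective (RingHom.injective_int _)]
  exact degree_linear (by exact_mod_cast hq.ne')

lemma f1_adm (q a : ℕ) (hc : q.Coprime a) (l : ℕ) (hl : l.Prime) : ∃ m : ℕ, ¬ (l : ℤ) ∣ (f1 q a).eval (m : ℤ) := by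
  by_cases h : l ∣ a
  · refine ⟨1, fun h1 => ?_⟩
    rw [f1_eval, show ((q : ℤ) * (1 : ℕ) + a) = ((q + a : ℕ) : ℤ) by push_cast; ring, Int.natCast_dvd_natCast] at h1
    have h2 : l ∣ q := (Nat.dvd_add_left h).1 h1
    exact hl.one_lt.ne' (Nat.eq_one_of_dvd_coprimes hc h2 h)
  · refine ⟨0, fun h1 => h ?_⟩
    rw [f1_eval, show ((q : ℤ) * (0 : ℕ) + a) = ((a : ℕ) : ℤ) by push_cast; ring, Int.natCast_dvd_natCast] at h1
    exact h1

/-- the system -/
noncomputable def fs (q a : ℕ) : Fin 1 → ℤ[X] := fun _ => f1 q a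

lemma fs_Q (q a l m : ℕ) : Q (fs q a) l m ↔ l ∣ q * m + a := by
  unfold Q fs
  rw [exists_const, f1_eval, show ((q : ℤ) * m + a) = ((q * m + a : ℕ) : ℤ) by push_cast; ring]
  exact Int.natCast_dvd_natCast

lemma rough_iff (q a y n : ℕ) : n ∈ Rough q a y ↔ Sf (Q (fs q a)) y n := by
  unfold Sf Rough
  simp only [fs_Q, mem_pz, Set.mem_ofPred_eq]
  constructor
  · exact fun h p hp => h p hp.2 hp.1
  · exact fun h p hp hpy => h p ⟨hpy, hp⟩

lemma nu_zero (q a l : ℕ) (hl : l.Prime) (hc : q.Coprime a) (h : l ∣ q) : nuB (Q (fs q a)) l = 0 := by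
  classical
  unfold nuB
  rw [card_eq_zero, filter_eq_empty_iff]
  intro m _ h1
  rw [fs_Q] at h1
  have h2 : l ∣ a := (Nat.dvd_add_right (Dvd.dvd.mul_right h m)).1 h1
  exact hl.one_lt.ne' (Nat.eq_one_of_dvd_coprimes hc h h2)

lemma nu_one (q a l : ℕ) (hl : l.Prime) (h : ¬ l ∣ q) : nuB (Q (fs q a)) l = 1 := by
  classical
  have : Fact l.Prime := ⟨hl⟩
  unfold nuB
  have hc : (q : ZMod l) ≠ 0 := by
    intro h1
    rw [ZMod.natCast_eq_zero_iff] at h1
    exact h h1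
  rw [card_eq_one]
  refine ⟨(-((q : ZMod l)⁻¹ * (a : ZMod l))).val, ?_⟩
  ext m
  rw [mem_filter, mem_singleton, mem_range, fs_Q, ← ZMod.natCast_eq_zero_iff]
  have e : ((q * m + a : ℕ) : ZMod l) = (q : ZMod l) * (m : ZMod l) + a := by
    push_cast
    ring
  rw [e]
  constructor
  · rintro ⟨hm, h1⟩
    have h3 : (m : ZMod l) = -((q : ZMod l)⁻¹ * (a : ZMod l)) := by
      have h4 : (q : ZMod l) * (m : ZMod l) = -(a : ZMod l) := eq_neg_of_add_eq_zero_left h1
      have h5 : (m : ZMod l) = (q : ZMod l)⁻¹ * ((q : ZMod l) * (m : ZMod l)) := by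
        rw [← mul_assoc, inv_mul_cancel₀ hc, one_mul]
      rw [h5, h4]
      ring
    rw [← h3, ZMod.val_natCast, Nat.mod_eq_of_lt hm]
  · intro h1
    rw [h1]
    refine ⟨ZMod.val_lt _, ?_⟩
    rw [ZMod.natCast_zmod_val, mul_neg, ← mul_assoc, mul_inv_cancel₀ hc]
    ring

lemma V_eq (q a y : ℕ) (hc : q.Coprime a) : Vq (Q (fs q a)) y = V q y := by
  classical
  unfold Vq V
  symm
  have hsub : (Icc 1 y).filter (fun l => l.Prime ∧ ¬ l ∣ q) ⊆ pz y := by
    intro l hl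
    rw [mem_filter, mem_Icc] at hl
    exact mem_pz.2 ⟨hl.1.2, hl.2.1⟩
  rw [← Finset.prod_subset hsub]
  · apply Finset.prod_congr rfl
    intro l hl
    rw [mem_filter, mem_Icc] at hl
    rw [nu_one q a l hl.2.1 hl.2.2]
    push_cast
    rfl
  · intro l hl hl2
    have h1 := mem_pz.1 hl
    have h3 : l ∣ q := by
      by_contra h
      apply hl2
      rw [mem_filter, mem_Icc]
      exact ⟨⟨h1.2.one_lt.le, h1.1⟩, h1.2, h⟩
    rw [nu_zero q a l h1.2 hc h3]
    simp

lemma mertens_eq (y : ℕ) : Vz y = mertens y := by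
  unfold Vz mertens
  rw [pz_eq']

lemma V_up (r : ℕ) (hr : 2 ≤ r) (B : ℝ) : ∃ Cv : ℝ, 0 < Cv ∧ ∀ᶠ X : ℕ in atTop,
    ∀ y : ℕ, y = ⌊(X : ℝ) ^ (1 / (r : ℝ))⌋₊ → B * mertens y ≤ Cv / Real.log X := by
  obtain ⟨C, hC, hVz⟩ := Vz_up r hr
  refine ⟨(|B| + 1) * C, by positivity, ?_⟩
  filter_upwards [hVz] with X hX y hy
  rw [← hy, mertens_eq] at hX
  have h0 : B ≤ |B| + 1 := by
    have := le_abs_self B
    linarith
  calc B * mertens y ≤ (|B| + 1) * mertens y := mul_le_mul_of_nonneg_right h0 hX.1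
    _ ≤ (|B| + 1) * (C / Real.log X) := mul_le_mul_of_nonneg_left hX.2 (by positivity)
    _ = (|B| + 1) * C / Real.log X := by ring

lemma us_k (A q a X : ℕ) (hX : 1 ≤ X) (hq : 0 < q) (hqX : q ≤ X ^ A) (haX : a ≤ X ^ A) (hc : q.Coprime a) (U : ℝ) :
    US 1 1 ((X : ℝ) ^ ((A : ℝ) + 1)) U (fs q a) := by
  have hX1 : (1 : ℝ) ≤ X := by exact_mod_cast hX
  have hpow : (X : ℝ) ^ A ≤ (X : ℝ) ^ ((A : ℝ) + 1) := by
    rw [← Real.rpow_natCast]
    exact Real.rpow_le_rpow_of_exponent_le hX1 (by linarith)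
  apply us_single (f1 q a) (f1_irr q a hq hc)
  · rw [f1_deg q a hq]
    norm_num
  · rw [f1_deg q a hq]
  · intro n
    refine le_trans ?_ hpow
    rcases n with _ | _ | n
    · have : (f1 q a).coeff 0 = a := by simp [f1]
      rw [this]
      push_cast
      rw [Nat.abs_cast]
      exact_mod_cast haX
    · have : (f1 q a).coeff 1 = q := by
        unfold f1
        rw [coeff_add, coeff_C_mul, coeff_X_one, coeff_C]
        norm_num
      rw [this]
      push_cast
      rw [Nat.abs_cast]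
      exact_mod_cast hqX
    · have : (f1 q a).coeff (n + 2) = 0 := by
        apply coeff_eq_zero_of_natDegree_lt
        rw [f1_deg q a hq]
        omega
      rw [this]
      push_cast
      rw [abs_zero]
      positivity
  · intro l hl
    exact f1_adm q a hc l hl

lemma almost_iff (A q a X z m : ℕ) (w : ℝ) (hw : 0 < w) (hX : 2 ≤ X) (hz : z = ⌊(X : ℝ) ^ w⌋₊) (hz2 : 2 ≤ z)
    (hqX : q ≤ X ^ A) (haX : a ≤ X ^ A) (hm : m ≤ X ^ A) :
    m ∈ AlmostRough q a ⌊((2 * A + 1 : ℕ) : ℝ) / w⌋₊ z ↔ m ∈ Rough q a z := by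
  refine ⟨fun h => h.1, fun h => ⟨h, ?_⟩⟩
  apply few_factors X w ((2 * A + 1 : ℕ) : ℝ) hX hw
  · intro h0
    exact h 2 Nat.prime_two hz2 (by rw [h0]; exact dvd_zero 2)
  · rw [Real.rpow_natCast]
    have h1 : q * m + a ≤ X ^ (2 * A + 1) := by
      have h2 : q * m ≤ X ^ A * X ^ A := Nat.mul_le_mul hqX hm
      have h3 : 1 ≤ X ^ A := Nat.one_le_pow _ _ (by omega)
      have h4 : X ^ A ≤ X ^ A * X ^ A := Nat.le_mul_of_pos_left _ h3
      have h5 : 2 * (X ^ A * X ^ A) ≤ X * (X ^ A * X ^ A) := Nat.mul_le_mul_right _ hX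
      have h6 : X ^ (2 * A + 1) = X * (X ^ A * X ^ A) := by ring
      omega
    exact_mod_cast h1
  · intro l hl hlz hd
    exact h l hl (by rw [hz]; exact hlz) hd

/-- the condition on `V` holds if `q / φ(q)` is bounded -/
lemma V_le (q y : ℕ) (hq : 1 ≤ q) : V q y ≤ q / (Nat.totient q : ℝ) * mertens y := by
  classical
  have hfac : ∀ l : ℕ, l.Prime → 0 < 1 - 1 / (l : ℝ) ∧ 1 - 1 / (l : ℝ) ≤ 1 := by
    intro l hl
    have h1 : (1 : ℝ) < l := by exact_mod_cast hl.one_lt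
    have h2 : 1 / (l : ℝ) < 1 := by
      rw [div_lt_one (by linarith)]
      exact h1
    have h3 : 0 ≤ 1 / (l : ℝ) := by positivity
    constructor <;> linarith
  obtain ⟨P, hP⟩ : ∃ P : ℝ, P = ∏ l ∈ (Icc 1 y).filter (fun l => l.Prime ∧ l ∣ q), (1 - 1 / (l : ℝ)) := ⟨_, rfl⟩
  have hm : mertens y = V q y * P := by
    rw [hP]
    unfold mertens V
    rw [← Finset.prod_filter_mul_prod_filter_not ((Icc 1 y).filter Nat.Prime) (fun l => ¬ l ∣ q)]
    rw [Finset.filter_filter, Finset.filter_filter]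
    simp only [not_not]
  have hV0 : 0 ≤ V q y := by
    unfold V
    exact Finset.prod_nonneg fun l hl => (hfac l (mem_filter.1 hl).2.1).1.le
  have hphi : (Nat.totient q : ℝ) ≤ q * P := by
    have h1 := Nat.totient_eq_mul_prod_factors q
    have h2 : (Nat.totient q : ℝ) = q * ∏ l ∈ q.primeFactors, (1 - 1 / (l : ℝ)) := by
      have h3 : ((Nat.totient q : ℚ) : ℝ) = ((q * ∏ p ∈ q.primeFactors, (1 - (p : ℚ)⁻¹) : ℚ) : ℝ) := by rw [h1]
      push_cast at h3
      rw [h3]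
      simp only [one_div]
    rw [h2]
    apply mul_le_mul_of_nonneg_left _ (Nat.cast_nonneg _)
    have hsub : (Icc 1 y).filter (fun l => l.Prime ∧ l ∣ q) ⊆ q.primeFactors := by
      intro l hl
      rw [mem_filter] at hl
      exact Nat.mem_primeFactors.2 ⟨hl.2.1, hl.2.2, by omega⟩
    rw [hP, ← Finset.prod_sdiff hsub]
    have h4 : ∏ l ∈ q.primeFactors \ (Icc 1 y).filter (fun l => l.Prime ∧ l ∣ q), (1 - 1 / (l : ℝ)) ≤ 1 :=
      Finset.prod_le_one (fun l hl => (hfac l (Nat.prime_of_mem_primeFactors (mem_sdiff.1 hl).1)).1.le)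
        (fun l hl => (hfac l (Nat.prime_of_mem_primeFactors (mem_sdiff.1 hl).1)).2)
    have h5 : 0 ≤ ∏ l ∈ (Icc 1 y).filter (fun l => l.Prime ∧ l ∣ q), (1 - 1 / (l : ℝ)) :=
      Finset.prod_nonneg fun l hl => (hfac l (mem_filter.1 hl).2.1).1.le
    exact mul_le_of_le_one_left h5 h4
  have hφ0 : (0 : ℝ) < Nat.totient q := by exact_mod_cast Nat.totient_pos.2 (by omega)
  rw [hm, div_mul_eq_mul_div, le_div_iff₀ hφ0]
  calc V q y * (Nat.totient q : ℝ) ≤ V q y * (q * P) := mul_le_mul_of_nonneg_left hphi hV0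
    _ = q * (V q y * P) := by ring

end aux

/-- (I) Let `A` be a natural number and `θ, η > 0`. There are `w > 0` and `R`, such that for all `J`, `L`, `x₀`, all `ε > 0`,
all large `r` and all `B`: for all large `x`, with `y = ⌊x ^ (1 / r)⌋`, `z = ⌊x ^ w⌋`, for ALL `q ≥ 1` and `a` prime to
`q`, `q, a ≤ x ^ A`, with `V q y ≤ B ∏ (1 - 1 / l)` (product over the primes `l ≤ y`), ALL
intervals `(Z, Z + Y]` with `Y ≥ x ^ θ` and all `T` with `T V ≤ x₀`, `V = V q y`:
(1) the set `Rough q a y` of the `m` for which `q m + a` has no prime factor `≤ y` satisfies `PoissonLaw`: for all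
disjoint windows `(c j, b j] ⊆ (0, T]`, `j < J`, all `s ≤ T` outside of them and all `k j ≤ L`, the number of the `m`
in `(Z, Z + Y]` with `m + s ∈ Rough q a y` and exactly `k j` elements of `Rough q a y` in `(m + c j, m + b j]` for all
`j` is `Y V Π` up to `ε Y V`, where `Π` is the product of the probabilities that a Poisson variable of mean
`(b j - c j) V` has the value `k j`; and the same without the condition on `m + s`, with `Y` instead of `Y V`;
(2) if `Z + Y + T ≤ x ^ A`: the number of the `m` in `(Z, Z + Y]` for which `q (m + s) + a` has at most `R` prime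
factors, all `> z`, with the same windows, is `Y W Π` up to `(η Π + ε) Y W`, `W = V q z`.
(II) The condition on `V q y` holds if `q / φ(q) ≤ B`. -/
theorem result : (∀ (A : ℕ) (θ η : ℝ), 0 < θ → 0 < η → ∃ w : ℝ, 0 < w ∧ ∃ R : ℕ, ∀ (J L : ℕ) (x₀ ε : ℝ), 0 < ε → ∃ r₀ : ℕ, ∀ r : ℕ, r₀ ≤ r → ∀ B : ℝ,
      ∀ᶠ x : ℕ in atTop, ∀ y z : ℕ, y = ⌊(x : ℝ) ^ (1 / (r : ℝ))⌋₊ → z = ⌊(x : ℝ) ^ w⌋₊ →
      ∀ q a : ℕ, 1 ≤ q → q ≤ x ^ A → a ≤ x ^ A → q.Coprime a → V q y ≤ B * mertens y →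
      ∀ Z Y T : ℕ, (x : ℝ) ^ θ ≤ Y → T * V q y ≤ x₀ → PoissonLaw (Rough q a y) (V q y) J L ε Z Y T ∧
        (Z + Y + T ≤ x ^ A → CentreLaw (AlmostRough q a R z) (Rough q a y) (V q z) (V q y) J L η ε Z Y T)) ∧
    ∀ q y : ℕ, 1 ≤ q → V q y ≤ q / (Nat.totient q : ℝ) * mertens y := by
  refine ⟨fun A θ η hθ hη => ?_, fun q y hq => V_le q y hq⟩
  obtain ⟨w, hw, hG⟩ := lawG_polys 1 1 ((A : ℝ) + 1) 1 θ (by positivity) one_pos hθ η hη
  refine ⟨w, hw, ⌊((2 * A + 1 : ℕ) : ℝ) / w⌋₊, ?_⟩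
  intro J L x₀ ε hε
  obtain ⟨r₁, h⟩ := law_polys 1 1 ((A : ℝ) + 1) 1 θ (by positivity) one_pos hθ J L x₀ ε hε
  obtain ⟨r₂, h'⟩ := hG w hw le_rfl J L x₀ ε hε
  refine ⟨max (max r₁ r₂) 2, fun r hr B => ?_⟩
  obtain ⟨Cv, hCv, hV⟩ := V_up r ((le_max_right _ _).trans hr) B
  have hpow : Tendsto (fun X : ℕ => (X : ℝ) ^ w) atTop atTop :=
    (tendsto_rpow_atTop hw).comp tendsto_natCast_atTop_atTop
  filter_upwards [h r (((le_max_left _ _).trans (le_max_left _ _)).trans hr) Cv,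
    h' r (((le_max_right _ _).trans (le_max_left _ _)).trans hr) Cv, hV, eventually_ge_atTop 2,
    hpow.eventually_ge_atTop 2] with X hX hX' hVX hX2 hXw
  intro y z hy hz q a hq hqX haX hc hVk Z Y T hY hT
  have hz2 : 2 ≤ z := by
    rw [hz]
    exact Nat.le_floor (by exact_mod_cast hXw)
  have hus := us_k A q a X (by omega) hq hqX haX hc ((X : ℝ) ^ (1 : ℝ))
  constructor
  · have h4 := hX (fs q a) hus (by rw [← hy, V_eq q a y hc]; exact hVk.trans (hVX y hy)) Z Y hY T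
    rw [← hy, V_eq q a y hc] at h4
    exact h4 hT (Rough q a y) (fun m _ => rough_iff q a y m)
  · intro hZ
    have h4 := hX' y z hy hz (fs q a) hus (by rw [V_eq q a y hc]; exact hVk.trans (hVX y hy)) Z Y hY T
    rw [V_eq q a y hc, V_eq q a z hc] at h4
    exact h4 hT (AlmostRough q a ⌊((2 * A + 1 : ℕ) : ℝ) / w⌋₊ z) (Rough q a y) (fun m _ => rough_iff q a y m)
      (fun m hm => (almost_iff A q a X z m w hw hX2 hz hz2 hqX haX (hm.trans hZ)).trans (rough_iff q a z m))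

end Pool.Agent.Results.MP_9cfc0a_nt.PoissonProgressions
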