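import Mathlib
import Pool.Agent.U746.RH.Lo

set_option autoImplicit false

/-!
# Montgomery's conjecture in random models of the primes: the threshold for square root cancellation

In the random model of the primes with the sieve `T` only the integers `n` without prime factors `p ≤ T(n)` are
chosen, independently and with probability `∏_{p ≤ T(n)} (1 - 1/p)⁻¹ / log n` (Cramér: `T = 0`; Granville: `T` of
the size of `log n`). Let `ψ(x; q, a)` be the sum of `log n` over the chosen `n ≤ x`, `n ≡ a` modulo `q`, and let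
`M(x, q) = ∑_{n ≤ x} (1/q) ∏_{p ∣ q, p ≤ T(n)} (1 - 1/p)⁻¹` be the main term of the model; this is `x / φ(q)` up
to an admissible error if all prime factors of `q` are at most `T(√x)`.

(A) Let `T` be nondecreasing and `T(n) ≤ (log n)^(A + o(1))`, `A > 0`. Then almost surely for every `ε > 0` there
is a `C` such that for ALL `q ≤ x` and all `a` coprime to `q`

`|ψ(x; q, a) - M(x, q)| ≤ C x^ε (x/q)^max(1/2, 1 - 1/A)`,

and the same with `x / φ(q)` if all prime factors of `q` are at most `T(√x)`. So for `A ≤ 2` the error in the model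
is almost surely that of Montgomery's conjecture, `C x^(1/2 + ε) / q^(1/2)`, for all moduli `q ≤ x` at once.

(B) For every `A > 2` there is a nondecreasing `T` of the exact order `(log n)^A` and a `K` such that almost
surely for all large `z` there is an integer `m` between `z` and `z^K` with `|ψ(m; 1, 0) - m| ≥ m^(1 - 1/A)`. So
Montgomery's conjecture almost surely fails in this model, even for the modulus `1` (where it is the Riemann
hypothesis for the chosen numbers in the place of the primes), and the exponent in (A) is the best possible.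

So the models whose sieves go up to `(log n)^2` are the last ones in which the sieve does not spoil square
root cancellation.

Proof. (A) Hoeffding's inequality for all progressions at once, and for the deterministic part the
sieve error `∑_{d ∣ P(y)} μ(d) {X / d}` is bounded by `X^σ ∏_{p ≤ y} (1 + p^(-σ))` (Rankin), with `y = T(x)`, on
the segments where `T` is constant (their endpoints are not used: the sum over `n` is rearranged by the levels
of `T`). (B) The sieve is constant on blocks `[N_j, N_(j+1))`, equal to `2^j`, where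
`log N_j ≍ 2^(j (1 - σ))`, `σ = 1 - 1/A`. The Mellin transform of the sieve error `B(x) - B(x/2)` at the point
`z = σ + i π / log y` is `(1 - 2^(-z)) ∏_{p ≤ y} (1 - p^(-z))` times the Mellin transform of the fractional part,
where the product is as large as `exp(∑_{p ≤ y} p^(-σ) (1 - o(1)))`, since `p^(-z)` is close to `- p^(-σ)` for most
of the primes; comparison with real points on both sides localises the mass at
`log x = (1 + o(1)) log y ∑_{p ≤ y} p^(-σ)`, inside the block.
-/

open MeasureTheory ProbabilityTheory Filter Topology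

namespace Pool.Agent.Results.MP_9cfc0a_nt.SquareRootErrorInRandomModels

open Classical in
/-- `∏_{p ≤ T(m)} (1 - 1/p)⁻¹` if `m` has no prime factor `p ≤ T(m)`, and `0` otherwise. -/
noncomputable def weight (T : ℕ → ℕ) (m : ℕ) : ℝ :=
  if ∀ p, p.Prime → p ≤ T m → ¬ p ∣ m then
    ∏ p ∈ (Finset.Icc 1 (T m)).filter Nat.Prime, (1 - 1 / (p : ℝ))⁻¹ else 0

/-- The random model: `E m` is the event that `m` is chosen; these events are independent and have
probability `weight T m / log m` (if this is at most `1`, which is the case for all large `m` here). -/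
structure Model {Ω : Type*} [MeasurableSpace Ω] (μ : Measure Ω) (T : ℕ → ℕ) (E : ℕ → Set Ω) : Prop where
  meas : ∀ m, MeasurableSet (E m)
  indep : iIndepSet E μ
  law : ∀ m : ℕ, μ.real (E m) = min 1 (weight T m / Real.log m)

/-- `T` is nondecreasing and `T(n) ≤ (log n)^(A + o(1))`. -/
def Growth (A : ℝ) (T : ℕ → ℕ) : Prop :=
  Monotone T ∧ ∀ δ : ℝ, 0 < δ → ∀ᶠ n : ℕ in atTop, (T n : ℝ) ≤ (Real.log n) ^ (A + δ)

/-- `T` is nondecreasing and has the exact order `(log n)^A`. -/
def ExactOrder (A : ℝ) (T : ℕ → ℕ) : Prop :=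
  Monotone T ∧ ∃ c C : ℝ, 0 < c ∧ 0 < C ∧
    ∀ᶠ n : ℕ in atTop, c * (Real.log n) ^ A ≤ T n ∧ (T n : ℝ) ≤ C * (Real.log n) ^ A

open Classical in
/-- `ψ(x; q, a)`: the sum of `log n` over the `n ≤ x` in `Q` which are congruent to `a` modulo `q`. -/
noncomputable def psi (Q : Set ℕ) (x q a : ℕ) : ℝ :=
  ∑ n ∈ (Finset.Ioc 0 x).filter (fun n => n ∈ Q ∧ n ≡ a [MOD q]), Real.log n

/-- `M(x, q)`: the main term of the model, for the classes coprime to `q`. -/
noncomputable def mainTerm (T : ℕ → ℕ) (x q : ℕ) : ℝ :=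
  ∑ n ∈ Finset.Ioc 0 x, (1 / (q : ℝ)) *
    ∏ p ∈ (Finset.Icc 1 (T n)).filter (fun p => p.Prime ∧ p ∣ q), (1 - 1 / (p : ℝ))⁻¹

theorem mainTerm_eq (T : ℕ → ℕ) (x q : ℕ) : mainTerm T x q = Pool.Agent.U746.RH.MT T x q := by
  unfold mainTerm Pool.Agent.U746.RH.MT Pool.Agent.U746.RH.mt Pool.Agent.U839.Sv.Pr
  apply Finset.sum_congr rfl
  intro n _
  rw [Finset.filter_filter]

theorem law' {Ω : Type*} [MeasurableSpace Ω] {μ : Measure Ω}
    {T : ℕ → ℕ} {E : ℕ → Set Ω} (hE : Model μ T E) (m : ℕ) :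
    μ.real (E m) = min 1 (Pool.Agent.U839.Sv.fT T m / Real.log m) := hE.law m

/-- **Montgomery's bound in random models: it holds almost surely for sieves up to `(log n)^(2 + o(1))`, and not
beyond.** -/
theorem result.{u} :
    (∀ A : ℝ, 0 < A → ∀ T : ℕ → ℕ, Growth A T → ∀ (Ω : Type u) [MeasurableSpace Ω] (μ : Measure Ω)
      [IsProbabilityMeasure μ] (E : ℕ → Set Ω), Model μ T E → ∀ᵐ ω ∂μ,
      ∀ ε : ℝ, 0 < ε → ∃ C : ℝ, ∀ x q a : ℕ, 1 ≤ q → q ≤ x → a.Coprime q →
        |psi {m | ω ∈ E m} x q a - mainTerm T x q| ≤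
          C * ((x : ℝ) ^ ε * ((x : ℝ) / q) ^ (max (1 / 2) (1 - 1 / A))) ∧
        ((∀ p : ℕ, p.Prime → p ∣ q → p ≤ T (Nat.sqrt x)) →
          |psi {m | ω ∈ E m} x q a - (x : ℝ) / q.totient| ≤
            C * ((x : ℝ) ^ ε * ((x : ℝ) / q) ^ (max (1 / 2) (1 - 1 / A))))) ∧
    (∀ A : ℝ, 2 < A → ∃ T : ℕ → ℕ, ExactOrder A T ∧ ∃ K : ℕ,
      ∀ (Ω : Type u) [MeasurableSpace Ω] (μ : Measure Ω) [IsProbabilityMeasure μ] (E : ℕ → Set Ω),
      Model μ T E → ∀ᵐ ω ∂μ, ∀ᶠ z : ℕ in atTop, ∃ m : ℕ, z ≤ m ∧ m ≤ z ^ K ∧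
        (m : ℝ) ^ (1 - 1 / A) ≤ |psi {m | ω ∈ E m} m 1 0 - m|) := by
  constructor
  · intro A hA T hT Ω _ μ _ E hE
    filter_upwards [Pool.Agent.U746.RH.up hE.meas hE.indep A hA T hT.1 hT.2 (law' hE)] with ω hω ε hε
    obtain ⟨C1, hC1, h1⟩ := hω ε hε
    obtain ⟨C2, hC2, h2⟩ := Pool.Agent.U746.RH.MT_smooth A hA T hT.1 hT.2 ε hε
    refine ⟨C1 + C2, ?_⟩
    intro x q a hq hqx ha
    have hq0 : (0 : ℝ) < q := by exact_mod_cast (by omega : 0 < q)
    have hxq : (1 : ℝ) ≤ (x : ℝ) / q := by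
      rw [le_div_iff₀ hq0, one_mul]
      exact_mod_cast hqx
    have h3 : |psi {m | ω ∈ E m} x q a - mainTerm T x q| ≤
        C1 * ((x : ℝ) ^ ε * ((x : ℝ) / q) ^ (max (1 / 2) (1 - 1 / A))) := by
      rw [mainTerm_eq]
      exact h1 x q a hq hqx ha
    have h4 : ((x : ℝ) / q) ^ (1 / 2 : ℝ) ≤ ((x : ℝ) / q) ^ (max (1 / 2) (1 - 1 / A)) :=
      Real.rpow_le_rpow_of_exponent_le hxq (le_max_left _ _)
    have h5 : C2 * ((x : ℝ) ^ ε * ((x : ℝ) / q) ^ (1 / 2 : ℝ)) ≤
        C2 * ((x : ℝ) ^ ε * ((x : ℝ) / q) ^ (max (1 / 2) (1 - 1 / A))) :=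
      mul_le_mul_of_nonneg_left (mul_le_mul_of_nonneg_left h4 (by positivity)) hC2.le
    have h6 : 0 ≤ (x : ℝ) ^ ε * ((x : ℝ) / q) ^ (max (1 / 2) (1 - 1 / A)) := by positivity
    refine ⟨by nlinarith, fun hp => ?_⟩
    have h7 := h2 x q hq hqx hp
    rw [← mainTerm_eq] at h7
    have h8 := abs_add_le (psi {m | ω ∈ E m} x q a - mainTerm T x q) (mainTerm T x q - (x : ℝ) / q.totient)
    rw [sub_add_sub_cancel] at h8
    linarith
  · intro A hA
    obtain ⟨T, hT, hTo, K, hK⟩ := Pool.Agent.U746.RH.low.{u} A hA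
    exact ⟨T, ⟨hT, hTo⟩, K, fun Ω _ μ _ E hE => hK Ω μ E hE.meas hE.indep (law' hE)⟩

end Pool.Agent.Results.MP_9cfc0a_nt.SquareRootErrorInRandomModels
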