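import Mathlib
import Pool.Agent.U365.LM.K

/-!
# Power savings on average over the multiples of individual moduli, with all heights inside

For every *single* `q ≤ x^κ`, `κ < 1/3`, which is not a multiple of one of a few exceptional
conductors, and for every residue class `l` prime to `q`:
`∑_t max_{y ≤ x} |ψ(y; q t, l) - ψ(y)/φ(q t)| ≤ x^(1-δ)/q`, where `t` runs over the products of primes in
`(x^ε, x^η]` with `q t ≤ x^θ`, every `θ < 43/84`.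

The proof: the starting files `Pool.Agent.R503.N` compare the primes in the class `l` modulo `q t` with
the primes in the class `l` modulo `q`, with a power saving for each single `q`, on average over `t`;
the files `Pool.Agent.U365.LM` show, with the large sieve on short blocks of conductors and many
heights, that all `q ≤ x^(1/3)` without an exceptional conductor have equidistributed primes.
-/

set_option autoImplicit false

namespace Pool.Agent.Results.MP_9cfc0a_nt.SumsOverMultiples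

open Finset

/-- `ψ(y; q, a)` -/
noncomputable def psi (y : ℝ) (q : ℕ) (a : ℤ) : ℝ :=
  ∑ n ∈ (Icc 1 ⌊y⌋₊).filter (fun n : ℕ => (n : ℤ) ≡ a [ZMOD q]), ArithmeticFunction.vonMangoldt n

/-- `ψ(y)` -/
noncomputable def total (y : ℝ) : ℝ := ∑ n ∈ Icc 1 ⌊y⌋₊, ArithmeticFunction.vonMangoldt n

open Classical in
/-- the positive integers `t` with `q t ≤ x^θ`, `q t` squarefree, `(l, t) = 1`, all of whose prime
factors lie in `(x^ε, x^η]` -/
noncomputable def right (x : ℕ) (θ ε η : ℝ) (q : ℕ) (l : ℤ) : Finset ℕ :=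
  (Icc 1 x).filter (fun t : ℕ => ((q * t : ℕ) : ℝ) ≤ (x : ℝ) ^ θ ∧ Squarefree (q * t) ∧
    Int.gcd l t = 1 ∧ ∀ p : ℕ, p.Prime → p ∣ t → (x : ℝ) ^ ε < p ∧ (p : ℝ) ≤ (x : ℝ) ^ η)

/-- a finite set `P` of integers `f ≥ 2` with at most `K (1 + z x^(-1/20))` elements up to `z`, for all
`z ≥ 1` -/
def Few (x : ℕ) (K : ℝ) (P : Finset ℕ) : Prop :=
  (∀ f ∈ P, 2 ≤ f) ∧
  ∀ z : ℕ, 1 ≤ z → ((P.filter (fun f => f ≤ z)).card : ℝ) ≤ K * (1 + z * (x : ℝ) ^ (-(1 / 20) : ℝ))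

theorem psi_eq (y : ℝ) (q : ℕ) (a : ℤ) : psi y q a = Pool.Agent.U365.LM.ps ⌊y⌋₊ q a := by
  unfold psi Pool.Agent.U365.LM.ps Pool.Agent.U365.LM.F
  rw [sum_filter]
  refine sum_congr rfl fun n _ => ?_
  unfold Pool.Agent.Y826.Z.ind
  have h : ((n : ℤ) ≡ a [ZMOD q]) ↔ (q : ℤ) ∣ (n : ℤ) - a := by
    rw [Int.modEq_iff_dvd, dvd_sub_comm]
  simp only [h]
  split_ifs <;> simp

theorem total_eq (y : ℝ) : total y = H343E.psi1 (⌊y⌋₊ : ℝ) := by
  unfold total H343E.psi1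
  rw [Nat.floor_natCast]

theorem mo {x q : ℕ} {θ ε η : ℝ} {l : ℤ} : ∀ t ∈ right x θ ε η q l, Pool.Agent.R503.N.Mo x q l θ ε η t := by
  intro t ht
  simp only [right, mem_filter] at ht
  obtain ⟨_, h2, h3, h4, h5⟩ := ht
  refine ⟨h3, Int.isCoprime_iff_gcd_eq_one.2 h4, h5, ?_⟩
  push_cast at h2
  exact h2

theorem right_mono {x q : ℕ} {θ θ' ε η : ℝ} {l : ℤ} (hx : 1 ≤ x) (h : θ ≤ θ') :
    right x θ ε η q l ⊆ right x θ' ε η q l := by
  intro t ht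
  have hx1 : (1 : ℝ) ≤ x := by exact_mod_cast hx
  simp only [right, mem_filter] at ht ⊢
  exact ⟨ht.1, ht.2.1.trans (Real.rpow_le_rpow_of_exponent_le hx1 h), ht.2.2⟩

/-- from `ψ(y)` to `y` in the sum -/
theorem to_y (U : ℕ) : ∀ᶠ x : ℕ in Filter.atTop, ∀ q : ℕ, 0 < q → ∀ (T : Finset ℕ) (l : ℤ),
    (∀ t ∈ T, 0 < t ∧ q * t ≤ x) → ∀ y : ℕ → ℝ, (∀ t, 1 ≤ y t ∧ y t ≤ x) → ∀ S : ℝ,
    ∑ t ∈ T, |psi (y t) (q * t) l - total (y t) / (Nat.totient (q * t) : ℝ)| ≤ S →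
    ∑ t ∈ T, |psi (y t) (q * t) l - y t / (Nat.totient (q * t) : ℝ)| ≤ S + (1 / 2) * (x / (q * Real.log x ^ U)) := by
  have h4 : ∀ᶠ x : ℕ in Filter.atTop, 2 ≤ Real.log x :=
    (Real.tendsto_log_atTop.comp tendsto_natCast_atTop_atTop).eventually (Filter.eventually_ge_atTop _)
  filter_upwards [Pool.Agent.U365.LM.reg_x (U + 2), h4, Filter.eventually_ge_atTop 3] with x h h4 hx q hq T l hT y hy S hS
  have hx0 : (0 : ℝ) < x := by exact_mod_cast (by omega : 0 < x)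
  have hqr : (0 : ℝ) < q := by exact_mod_cast hq
  have hL0 : 0 < Real.log x := by linarith
  have h1 : ∀ t ∈ T, |psi (y t) (q * t) l - y t / (Nat.totient (q * t) : ℝ)| ≤
      |psi (y t) (q * t) l - total (y t) / (Nat.totient (q * t) : ℝ)| +
        (1 / 2) * (x / (q * Real.log x ^ (U + 2))) * (1 / (t : ℝ)) := by
    intro t ht
    have h2 := h (q * t) (Nat.mul_pos hq (hT t ht).1) (hT t ht).2 l (y t) (hy t).1 (hy t).2 _ le_rfl
    rw [← psi_eq, ← total_eq] at h2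
    refine h2.trans (le_of_eq ?_)
    have ht0 : (0 : ℝ) < t := by exact_mod_cast (hT t ht).1
    push_cast
    field_simp
  refine (sum_le_sum h1).trans ?_
  rw [sum_add_distrib, ← mul_sum]
  refine add_le_add hS ?_
  have h5 := Pool.Agent.R503.N.sum_mult 1 x one_pos T (fun t ht => ⟨(hT t ht).1,
    (Nat.le_mul_of_pos_left t hq).trans (hT t ht).2, one_dvd _⟩)
  rw [Nat.cast_one, div_one] at h5
  have h6 : 1 + Real.log (x : ℝ) ≤ Real.log x ^ 2 := by nlinarith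
  calc (1 / 2) * (x / (q * Real.log x ^ (U + 2))) * ∑ t ∈ T, (1 / (t : ℝ)) ≤
      (1 / 2) * (x / (q * Real.log x ^ (U + 2))) * Real.log x ^ 2 := by
        apply mul_le_mul_of_nonneg_left (h5.trans h6) (by positivity)
    _ = _ := by rw [pow_add]; field_simp

/-- **Averages over the multiples of individual moduli, all heights inside.** -/
theorem result : ∀ θ κ : ℝ, θ < 43 / 84 → κ < 1 / 3 → ∃ η : ℝ, 0 < η ∧ ∀ ε : ℝ, 0 < ε →
    (∀ ν : ℝ, 0 < ν → ∃ δ : ℝ, 0 < δ ∧ ∀ U : ℕ, ∃ x₀ : ℕ, ∀ x : ℕ, x₀ ≤ x →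
      ∃ P : Finset ℕ, Few x ((x : ℝ) ^ ν) P ∧
      ∀ q : ℕ, 0 < q → (q : ℝ) ≤ (x : ℝ) ^ κ → (∀ f ∈ P, ¬ f ∣ q) → ∀ l : ℤ, Int.gcd l q = 1 →
      ∀ y : ℕ → ℝ, (∀ t, 1 ≤ y t ∧ y t ≤ x) →
      ∑ t ∈ right x θ ε η q l, |psi (y t) (q * t) l - total (y t) / (Nat.totient (q * t) : ℝ)| ≤
        (x : ℝ) ^ (1 - δ) / q ∧
      ∑ t ∈ right x θ ε η q l, |psi (y t) (q * t) l - y t / (Nat.totient (q * t) : ℝ)| ≤
        x / (q * Real.log x ^ U)) ∧
    (∀ U B : ℕ, ∃ C : ℕ, ∀ A : ℕ, ∃ x₀ : ℕ, ∀ x : ℕ, x₀ ≤ x →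
      ∃ P : Finset ℕ, Few x (Real.log x ^ C) P ∧ (∀ f ∈ P, Real.log x ^ A < f) ∧
      ∀ q : ℕ, 0 < q → (q : ℝ) ≤ (x : ℝ) ^ κ → (q.divisors.card : ℝ) ≤ Real.log x ^ B →
      (∀ f ∈ P, ¬ f ∣ q) → ∀ l : ℤ, Int.gcd l q = 1 →
      ∀ y : ℕ → ℝ, (∀ t, 1 ≤ y t ∧ y t ≤ x) →
      ∑ t ∈ right x θ ε η q l, |psi (y t) (q * t) l - y t / (Nat.totient (q * t) : ℝ)| ≤
        x / (q * Real.log x ^ U)) := by
  intro θ κ hθ hκ
  have hθ' : max θ (1 / 2) < 43 / 84 := max_lt hθ (by norm_num)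
  have hκ' : max κ 0 < 1 / 3 := max_lt hκ (by norm_num)
  obtain ⟨η1, hη1, hp⟩ := Pool.Agent.U365.LM.indiv_psi_power (max θ (1 / 2)) (max κ 0) (le_max_right _ _) hθ'
    (le_max_right _ _) hκ'
  obtain ⟨η2, hη2, hl⟩ := Pool.Agent.U365.LM.indiv_psi_log (max θ (1 / 2)) (max κ 0) (le_max_right _ _) hθ'
    (le_max_right _ _) hκ'
  have hmono : ∀ {x q : ℕ} {ε η η' : ℝ} {l : ℤ}, 1 ≤ x → η ≤ η' → ∀ t ∈ right x θ ε η q l,
      Pool.Agent.R503.N.Mo x q l (max θ (1 / 2)) ε η' t := by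
    intro x q ε η η' l hx h t ht
    have hx1 : (1 : ℝ) ≤ x := by exact_mod_cast hx
    have h1 := mo t (right_mono hx (le_max_left θ (1 / 2)) ht)
    exact ⟨h1.1, h1.2.1, fun p hp hpt => ⟨(h1.2.2.1 p hp hpt).1, (h1.2.2.1 p hp hpt).2.trans
      (Real.rpow_le_rpow_of_exponent_le hx1 h)⟩, h1.2.2.2⟩
  have hκx : ∀ {x q : ℕ}, 1 ≤ x → (q : ℝ) ≤ (x : ℝ) ^ κ → (q : ℝ) ≤ (x : ℝ) ^ (max κ 0) := by
    intro x q hx h
    have hx1 : (1 : ℝ) ≤ x := by exact_mod_cast hx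
    exact h.trans (Real.rpow_le_rpow_of_exponent_le hx1 (le_max_left _ _))
  have hbnd : ∀ {x q : ℕ} {ε η : ℝ} {l : ℤ}, 1 ≤ x → ∀ t ∈ right x θ ε η q l, 0 < t ∧ q * t ≤ x := by
    intro x q ε η l hx t ht
    have hx1 : (1 : ℝ) ≤ x := by exact_mod_cast hx
    have h1 := ht
    simp only [right, mem_filter, mem_Icc] at h1
    refine ⟨h1.1.1, ?_⟩
    have h2 : ((q * t : ℕ) : ℝ) ≤ x := by
      refine h1.2.1.trans ?_
      calc (x : ℝ) ^ θ ≤ (x : ℝ) ^ (1 : ℝ) := Real.rpow_le_rpow_of_exponent_le hx1 (by linarith)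
        _ = x := Real.rpow_one _
    exact_mod_cast h2
  have hfl : ∀ {x : ℕ} {y : ℕ → ℝ}, (∀ t, 1 ≤ y t ∧ y t ≤ x) → ∀ t, ⌊y t⌋₊ ≤ x := by
    intro x y hy t
    have : (⌊y t⌋₊ : ℝ) ≤ x := (Nat.floor_le (by linarith [(hy t).1])).trans (hy t).2
    exact_mod_cast this
  have hsum : ∀ (x q : ℕ) (T : Finset ℕ) (l : ℤ) (y : ℕ → ℝ),
      ∑ t ∈ T, |psi (y t) (q * t) l - total (y t) / (Nat.totient (q * t) : ℝ)| = ∑ t ∈ T,
        |Pool.Agent.U365.LM.ps ⌊y t⌋₊ (q * t) l - H343E.psi1 (⌊y t⌋₊ : ℝ) / (Nat.totient (q * t) : ℝ)| := by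
    intro x q T l y
    refine sum_congr rfl fun t _ => ?_
    rw [psi_eq, total_eq]
  refine ⟨min η1 η2, lt_min hη1 hη2, fun ε hε => ⟨fun ν hν => ?_, fun U B => ?_⟩⟩
  · obtain ⟨δ, hδ, hev⟩ := hp ε hε ν hν
    refine ⟨δ, hδ, fun U => ?_⟩
    have hlog : ∀ᶠ x : ℕ in Filter.atTop, 2 * Real.log x ^ U ≤ (x : ℝ) ^ δ :=
      tendsto_natCast_atTop_atTop.eventually (Pool.Agent.Y61.Z.ev_log_rpow 2 U hδ)
    obtain ⟨x₀, hx₀⟩ := Filter.eventually_atTop.1 ((hev.and hlog).and (to_y U))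
    refine ⟨max x₀ 3, fun x hx => ?_⟩
    have hx3 : 3 ≤ x := (le_max_right _ _).trans hx
    have hx1 : 1 ≤ x := by omega
    obtain ⟨⟨⟨P, hP2, hPc, h⟩, hlg⟩, hty⟩ := hx₀ x ((le_max_left _ _).trans hx)
    refine ⟨P, ⟨hP2, hPc⟩, fun q hq hqκ hqP l hl y hy => ?_⟩
    have hM : ∀ t ∈ right x θ ε (min η1 η2) q l, Pool.Agent.R503.N.Mo x q l (max θ (1 / 2)) ε η1 t :=
      hmono hx1 (min_le_left _ _)
    have h1 := h q hq (hκx hx1 hqκ) hqP l (Int.isCoprime_iff_gcd_eq_one.2 hl) (right x θ ε (min η1 η2) q l) hM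
      (fun t => ⌊y t⌋₊) (hfl hy)
    rw [← hsum x] at h1
    refine ⟨h1, (hty q hq _ l (hbnd hx1) y hy _ h1).trans ?_⟩
    have hx0 : (0 : ℝ) < x := by exact_mod_cast (by omega : 0 < x)
    have hqr : (0 : ℝ) < q := by exact_mod_cast hq
    have hL := Pool.Agent.R503.N.log_ge1 hx3
    have hL0 : 0 < Real.log x := by linarith
    have e : (x : ℝ) ^ (1 - δ) = x / (x : ℝ) ^ δ := by rw [Real.rpow_sub hx0, Real.rpow_one]
    have i1 : (x : ℝ) ^ (1 - δ) / q ≤ (1 / 2) * (x / (q * Real.log x ^ U)) := by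
      rw [e]
      calc x / (x : ℝ) ^ δ / q ≤ x / (2 * Real.log x ^ U) / q := by gcongr
        _ = _ := by field_simp
    linarith
  · obtain ⟨C, hC⟩ := hl ε hε (U + 1) B
    refine ⟨C, fun A => ?_⟩
    have hlog : ∀ᶠ x : ℕ in Filter.atTop, 2 ≤ Real.log x :=
      (Real.tendsto_log_atTop.comp tendsto_natCast_atTop_atTop).eventually (Filter.eventually_ge_atTop _)
    obtain ⟨x₀, hx₀⟩ := Filter.eventually_atTop.1 (((hC A).and (to_y U)).and hlog)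
    refine ⟨max x₀ 3, fun x hx => ?_⟩
    have hx3 : 3 ≤ x := (le_max_right _ _).trans hx
    have hx1 : 1 ≤ x := by omega
    obtain ⟨⟨⟨P, hP2, hPc, h⟩, hty⟩, hL2⟩ := hx₀ x ((le_max_left _ _).trans hx)
    refine ⟨P, ⟨fun f hf => (hP2 f hf).1, hPc⟩, fun f hf => (hP2 f hf).2, fun q hq hqκ hqB hqP l hl y hy => ?_⟩
    have hM : ∀ t ∈ right x θ ε (min η1 η2) q l, Pool.Agent.R503.N.Mo x q l (max θ (1 / 2)) ε η2 t :=
      hmono hx1 (min_le_right _ _)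
    have h1 := h q hq (hκx hx1 hqκ) hqB hqP l (Int.isCoprime_iff_gcd_eq_one.2 hl) (right x θ ε (min η1 η2) q l) hM
      (fun t => ⌊y t⌋₊) (hfl hy)
    rw [← hsum x] at h1
    refine (hty q hq _ l (hbnd hx1) y hy _ h1).trans ?_
    have hqr : (0 : ℝ) < q := by exact_mod_cast hq
    have hx0 : (0 : ℝ) < x := by exact_mod_cast (by omega : 0 < x)
    have hL0 : 0 < Real.log x := by linarith
    have i1 : (x : ℝ) / (q * Real.log x ^ (U + 1)) ≤ (1 / 2) * (x / (q * Real.log x ^ U)) := by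
      calc (x : ℝ) / (q * Real.log x ^ (U + 1)) = (1 / Real.log x) * (x / (q * Real.log x ^ U)) := by
            rw [pow_succ]; field_simp
        _ ≤ (1 / 2) * (x / (q * Real.log x ^ U)) := by gcongr
    linarith

end Pool.Agent.Results.MP_9cfc0a_nt.SumsOverMultiples
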